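import Pool.Agent.FAD.Final

/-!
# Natural boundaries of zeta functions of FAD-systems

For every FAD-system whose Artin-Mazur zeta function is not root-rational, the zeta function
has the circle `|z| = 1/Λ` as a natural boundary.
-/

namespace Pool.Agent.Results.MP_dde008_nt.NaturalBoundary

open Pool.Agent.FAD

/-- For every FAD-system `(X,f)` whose zeta function is not root-rational, the zeta function
has a natural boundary along the circle `|z| = 1/Λ`. -/
theorem result : ∀ (X : Type*) (f : X → X), IsFAD f → ¬ IsRootRational (zeta f) →
    HasNaturalBoundary (zeta f) (1 / growth f) :=
  fun _ f hf hnr => naturalBoundary_of_FAD f hf hnr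

end Pool.Agent.Results.MP_dde008_nt.NaturalBoundary
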